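import Pool.Agent.Helper5.ST.GoalsA

/-!
Packet MOM of MP_f1caa3_al: moments of the cocycle.
-/

namespace Pool.Agent.Helper77.ST

open Pool.Agent.Helper5.ST
open scoped InnerProductSpace

universe u

variable {G : Type u} [Group G] (w : Walk G) {V : Type u} [NormedAddCommGroup V]
  [InnerProductSpace ℝ V] (π : G →* (V ≃ₗᵢ[ℝ] V)) (ξ : V)

omit w in
theorem norm_coc_sq (g : G) : ‖coc π ξ g‖ ^ 2 = 2 * ‖ξ‖ ^ 2 - 2 * ⟪π g ξ, ξ⟫_ℝ := by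
  rw [coc, norm_sub_sq_real, (π g).norm_map]
  ring

theorem mean_norm_coc_sq (j : ℕ) : w.mean j (fun g => ‖coc π ξ g‖ ^ 2)
    = 2 * ‖ξ‖ ^ 2 - 2 * w.mean j (fun g => ⟪π g ξ, ξ⟫_ℝ) := by
  simp only [norm_coc_sq]
  rw [w.mean_sub, w.mean_const, w.mean_const_mul]

theorem mean_norm_coc_sq_succ (j : ℕ) : w.mean (j + 1) (fun g => ‖coc π ξ g‖ ^ 2)
    = w.mean j (fun g => ‖coc π ξ g‖ ^ 2) + w.tt π ξ j := by
  rw [mean_norm_coc_sq, mean_norm_coc_sq, Walk.tt]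
  ring

theorem mean_norm_coc_sq_zero : w.mean 0 (fun g => ‖coc π ξ g‖ ^ 2) = 0 := by
  rw [w.mean_zero, Walk.coc_one]
  simp

variable {w π ξ}

theorem tt_le_one {τ : ℝ} (hX : IsXi w π ξ τ) (j : ℕ) : w.tt π ξ j ≤ 1 := by
  induction j with
  | zero => exact hX.t0.le
  | succ j ih => exact (hX.anti j).trans ih

theorem mean_le {τ : ℝ} (hX : IsXi w π ξ τ) (j : ℕ) :
    w.mean j (fun g => ‖coc π ξ g‖ ^ 2) ≤ j := by
  induction j with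
  | zero => rw [mean_norm_coc_sq_zero]; simp
  | succ j ih =>
    rw [mean_norm_coc_sq_succ]
    push_cast
    linarith [tt_le_one hX j]

theorem sum_eq_one {τ : ℝ} (hX : IsXi w π ξ τ) :
    ∑ i, w.p i * ‖coc π ξ (w.s i)‖ ^ 2 = 1 := by
  have h1 := mean_norm_coc_sq_succ w π ξ 0
  rw [mean_norm_coc_sq_zero, hX.t0, zero_add, zero_add, w.mean_one] at h1
  simpa only [smul_eq_mul] using h1

theorem single_le {τ : ℝ} (hX : IsXi w π ξ τ) (i : w.I) :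
    ‖coc π ξ (w.s i)‖ ^ 2 ≤ 4 * w.k := by
  have hk := w.k_pos
  have h1 : w.p i * ‖coc π ξ (w.s i)‖ ^ 2 ≤ 1 := by
    rw [← sum_eq_one hX]
    exact Finset.single_le_sum (f := fun i => w.p i * ‖coc π ξ (w.s i)‖ ^ 2)
      (fun j _ => mul_nonneg (w.p_nonneg j) (sq_nonneg _)) (Finset.mem_univ i)
  have h2 : 1 / (4 * w.k) * ‖coc π ξ (w.s i)‖ ^ 2 ≤ 1 :=
    (mul_le_mul_of_nonneg_right (w.p_low i) (sq_nonneg _)).trans h1
  rw [one_div, inv_mul_le_iff₀ (by positivity)] at h2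
  linarith

theorem norm_drift {τ : ℝ} (hX : IsXi w π ξ τ) :
    ‖∑ i, w.p i • coc π ξ (w.s i)‖ ^ 2 ≤ τ / 2 := by
  have h1 : ∑ i, w.p i • coc π ξ (w.s i) = w.Q π ξ - ξ := by
    simp only [coc, smul_sub, Finset.sum_sub_distrib]
    rw [w.Q_apply, ← Finset.sum_smul, w.p_sum, one_smul]
  have hm : ∀ j, w.mean j (fun g => ⟪π g ξ, ξ⟫_ℝ) = ⟪((w.Q π) ^ j) ξ, ξ⟫_ℝ := by
    intro j
    rw [w.mean_inner_left, w.mean_rep]
  have h2 : ⟪w.Q π ξ, w.Q π ξ⟫_ℝ = ⟪((w.Q π) ^ 2) ξ, ξ⟫_ℝ := by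
    rw [← w.inner_Q, pow_two, Module.End.mul_apply]
  have h3 : w.tt π ξ 0 = 2 * (⟪ξ, ξ⟫_ℝ - ⟪w.Q π ξ, ξ⟫_ℝ) := by
    rw [Walk.tt, hm, hm]
    simp
  have h4 : w.tt π ξ 1 = 2 * (⟪w.Q π ξ, ξ⟫_ℝ - ⟪((w.Q π) ^ 2) ξ, ξ⟫_ℝ) := by
    rw [Walk.tt, hm, hm]
    simp
  have h5 := hX.slow 0
  rw [hX.t0] at h5 h3
  rw [zero_add, h4] at h5
  rw [h1, norm_sub_sq_real, ← real_inner_self_eq_norm_sq, ← real_inner_self_eq_norm_sq, h2]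
  linarith

/-- the pointwise estimate -/
theorem step {τ : ℝ} (hX : IsXi w π ξ τ) (g : G) :
    ∑ i, w.p i • ‖coc π ξ (g * w.s i)‖ ^ 4
      ≤ (1 + 2 * τ) * ‖coc π ξ g‖ ^ 4 + 9 * ‖coc π ξ g‖ ^ 2 + 12 * w.k := by
  set r : ℝ := ‖coc π ξ g‖ with hr
  have hr0 : 0 ≤ r := norm_nonneg _
  set c : V := ∑ i, w.p i • coc π ξ (w.s i) with hc
  have hci : ∀ i, w.p i • ‖coc π ξ (g * w.s i)‖ ^ 4 ≤
      w.p i * r ^ 4 + 8 * r ^ 2 * (w.p i * ‖coc π ξ (w.s i)‖ ^ 2)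
        + 12 * w.k * (w.p i * ‖coc π ξ (w.s i)‖ ^ 2)
        + 4 * r ^ 2 * (w.p i * ⟪coc π ξ g, π g (coc π ξ (w.s i))⟫_ℝ) := by
    intro i
    set y : ℝ := ⟪coc π ξ g, π g (coc π ξ (w.s i))⟫_ℝ with hy
    set ζ : ℝ := ‖coc π ξ (w.s i)‖ with hζ
    have hζ0 : 0 ≤ ζ := norm_nonneg _
    have hζk : ζ ^ 2 ≤ 4 * w.k := single_le hX i
    have hyle : |y| ≤ r * ζ := by
      have := abs_real_inner_le_norm (coc π ξ g) (π g (coc π ξ (w.s i)))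
      rwa [(π g).norm_map] at this
    have hn : ‖coc π ξ (g * w.s i)‖ ^ 2 = r ^ 2 + 2 * y + ζ ^ 2 := by
      rw [Walk.coc_mul, norm_add_sq_real, (π g).norm_map]
    have h4 : ‖coc π ξ (g * w.s i)‖ ^ 4 = (r ^ 2 + 2 * y + ζ ^ 2) ^ 2 := by
      rw [← hn]; ring
    have hy2 : y ^ 2 ≤ r ^ 2 * ζ ^ 2 := by
      rw [← sq_abs y, ← mul_pow]
      exact pow_le_pow_left₀ (abs_nonneg y) hyle 2
    have hyz : 4 * y * ζ ^ 2 ≤ 2 * r ^ 2 * ζ ^ 2 + 2 * ζ ^ 2 * ζ ^ 2 := by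
      have h5 : y ≤ r * ζ := (le_abs_self y).trans hyle
      have h6 : 2 * (r * ζ) ≤ r ^ 2 + ζ ^ 2 := by nlinarith [sq_nonneg (r - ζ)]
      have h7 : 2 * y ≤ r ^ 2 + ζ ^ 2 := by linarith
      nlinarith [mul_le_mul_of_nonneg_right h7 (sq_nonneg ζ)]
    have hzz : ζ ^ 2 * ζ ^ 2 ≤ 4 * w.k * ζ ^ 2 := mul_le_mul_of_nonneg_right hζk (sq_nonneg ζ)
    have hmain : (r ^ 2 + 2 * y + ζ ^ 2) ^ 2 ≤
        r ^ 4 + 8 * r ^ 2 * ζ ^ 2 + 12 * w.k * ζ ^ 2 + 4 * r ^ 2 * y := by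
      have e : (r ^ 2 + 2 * y + ζ ^ 2) ^ 2 = r ^ 4 + 4 * y ^ 2 + ζ ^ 2 * ζ ^ 2 + 4 * r ^ 2 * y
          + 2 * r ^ 2 * ζ ^ 2 + 4 * y * ζ ^ 2 := by ring
      rw [e]
      linarith
    rw [h4, smul_eq_mul]
    calc w.p i * (r ^ 2 + 2 * y + ζ ^ 2) ^ 2
        ≤ w.p i * (r ^ 4 + 8 * r ^ 2 * ζ ^ 2 + 12 * w.k * ζ ^ 2 + 4 * r ^ 2 * y) :=
          mul_le_mul_of_nonneg_left hmain (w.p_nonneg i)
      _ = _ := by ring
  refine (Finset.sum_le_sum fun i _ => hci i).trans ?_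
  rw [Finset.sum_add_distrib, Finset.sum_add_distrib, Finset.sum_add_distrib, ← Finset.sum_mul,
    ← Finset.mul_sum, ← Finset.mul_sum, ← Finset.mul_sum, w.p_sum, sum_eq_one hX]
  have h1 : ∑ i, w.p i * ⟪coc π ξ g, π g (coc π ξ (w.s i))⟫_ℝ = ⟪coc π ξ g, π g c⟫_ℝ := by
    rw [hc, map_sum, inner_sum]
    refine Finset.sum_congr rfl fun i _ => ?_
    rw [map_smul, real_inner_smul_right]
  rw [h1]
  have h2 : ⟪coc π ξ g, π g c⟫_ℝ ≤ r * ‖c‖ := by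
    have := real_inner_le_norm (coc π ξ g) (π g c)
    rwa [(π g).norm_map] at this
  have h3 : ‖c‖ ^ 2 ≤ τ / 2 := norm_drift hX
  have h4 : 4 * r ^ 2 * ⟪coc π ξ g, π g c⟫_ℝ ≤ 2 * τ * r ^ 4 + r ^ 2 := by
    have h5 : 4 * r ^ 2 * ⟪coc π ξ g, π g c⟫_ℝ ≤ 4 * r ^ 2 * (r * ‖c‖) :=
      mul_le_mul_of_nonneg_left h2 (by positivity)
    have h6 : 4 * r ^ 2 * (r * ‖c‖) ≤ 4 * ‖c‖ ^ 2 * r ^ 4 + r ^ 2 := by
      nlinarith [sq_nonneg (2 * ‖c‖ * r ^ 2 - r)]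
    have h7 : 4 * ‖c‖ ^ 2 * r ^ 4 ≤ 4 * (τ / 2) * r ^ 4 :=
      mul_le_mul_of_nonneg_right (by linarith) (by positivity)
    linarith
  linarith

theorem mom : SMom.{u} := by
  intro G _ w V _ _ π ξ τ hτ hX
  refine ⟨single_le hX, sum_eq_one hX, norm_drift hX, mean_le hX, ?_⟩
  intro j
  induction j with
  | zero =>
    intro _
    rw [w.mean_zero, Walk.coc_one]
    simp
  | succ j ih =>
    intro hj
    have hk : 1 ≤ w.k := w.k1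
    push_cast at hj
    have hj' : (j : ℝ) * τ ≤ 1 / 100 := by nlinarith
    have hF := ih hj'
    have hM := mean_le hX j
    have hj0 : (0 : ℝ) ≤ j := Nat.cast_nonneg j
    rw [w.mean_succ']
    have h1 : w.mean j (fun g => ∑ i, w.p i • ‖coc π ξ (g * w.s i)‖ ^ 4) ≤
        w.mean j (fun g => (1 + 2 * τ) * ‖coc π ξ g‖ ^ 4 + 9 * ‖coc π ξ g‖ ^ 2 + 12 * w.k) :=
      w.mean_mono fun g _ => step hX g
    refine h1.trans ?_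
    rw [w.mean_add, w.mean_add, w.mean_const, w.mean_const_mul, w.mean_const_mul]
    have h2 : (1 + 2 * τ) * w.mean j (fun g => ‖coc π ξ g‖ ^ 4)
        ≤ (1 + 2 * τ) * (80 * w.k * (j : ℝ) ^ 2) :=
      mul_le_mul_of_nonneg_left hF (by linarith)
    have h3 : 2 * τ * (80 * w.k * (j : ℝ) ^ 2) ≤ 160 / 100 * w.k * j := by
      have : 2 * τ * (80 * w.k * (j : ℝ) ^ 2) = 160 * w.k * j * (j * τ) := by ring
      rw [this]
      have : 160 * w.k * j * (j * τ) ≤ 160 * w.k * j * (1 / 100) :=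
        mul_le_mul_of_nonneg_left hj' (by positivity)
      linarith
    have h4 : (9 : ℝ) * j ≤ 9 * w.k * j := by nlinarith
    push_cast
    have h5 : 0 ≤ w.k * j := by positivity
    nlinarith

end Pool.Agent.Helper77.ST
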