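import Pool.Agent.Helper69.ST.Goals
import Pool.Agent.Helper45.Stek.FM

/-! # Project ST, packet TT: the transfer -/

open MeasureTheory Set Complex Metric Filter
open scoped ContDiff Topology ENNReal

namespace Pool.Agent.Helper77.ST.TT

open Pool.Agent.Helper45.Stek Pool.Agent.Helper69.ST

variable {k : ℕ}

/-- linear combination -/
noncomputable def uc (u : Fin (k + 1) → ℂ → ℂ) (c : Fin (k + 1) → ℂ) (z : ℂ) : ℂ :=
  ∑ i, c i * u i z

lemma uc_cont {u : Fin (k + 1) → ℂ → ℂ} (hu : ∀ i, ContDiff ℝ ∞ (u i)) (c : Fin (k + 1) → ℂ) :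
    Continuous (uc u c) := by
  unfold uc
  exact continuous_finset_sum _ fun i _ => continuous_const.mul (hu i).continuous

lemma uc_smooth {u : Fin (k + 1) → ℂ → ℂ} (hu : ∀ i, ContDiff ℝ ∞ (u i)) (c : Fin (k + 1) → ℂ) :
    ContDiff ℝ ∞ (uc u c) := by
  unfold uc
  exact ContDiff.sum fun i _ => contDiff_const.mul (hu i)

lemma uc_norm {u : Fin (k + 1) → ℂ → ℂ} {K : ℝ} {y : ℂ} (hK : ∑ i, ‖u i y‖ ≤ K)
    (c : Fin (k + 1) → ℂ) : ‖uc u c y‖ ≤ ‖c‖ * K := by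
  unfold uc
  calc ‖∑ i, c i * u i y‖ ≤ ∑ i, ‖c i * u i y‖ := norm_sum_le _ _
    _ ≤ ∑ i, ‖c‖ * ‖u i y‖ := by
        apply Finset.sum_le_sum
        intro i _
        rw [norm_mul]
        exact mul_le_mul_of_nonneg_right (norm_le_pi_norm c i) (norm_nonneg _)
    _ = ‖c‖ * ∑ i, ‖u i y‖ := by rw [Finset.mul_sum]
    _ ≤ ‖c‖ * K := mul_le_mul_of_nonneg_left hK (norm_nonneg _)

lemma uc_sub (u : Fin (k + 1) → ℂ → ℂ) (c d : Fin (k + 1) → ℂ) (y : ℂ) :
    uc u c y - uc u d y = uc u (c - d) y := by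
  unfold uc
  rw [← Finset.sum_sub_distrib]
  refine Finset.sum_congr rfl fun i _ => ?_
  rw [Pi.sub_apply]
  ring

lemma uc_smul (u : Fin (k + 1) → ℂ → ℂ) (r : ℝ) (c : Fin (k + 1) → ℂ) (y : ℂ) :
    ‖uc u (r • c) y‖ ^ 2 = r ^ 2 * ‖uc u c y‖ ^ 2 := by
  have h : uc u (r • c) y = (r : ℂ) * uc u c y := by
    unfold uc
    rw [Finset.mul_sum]
    refine Finset.sum_congr rfl fun i _ => ?_
    rw [Pi.smul_apply, Complex.real_smul]
    ring
  rw [h, norm_mul, mul_pow, Complex.norm_real, Real.norm_eq_abs, sq_abs]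

lemma sq_lip {u : Fin (k + 1) → ℂ → ℂ} {K : ℝ} {y : ℂ} (hK : ∑ i, ‖u i y‖ ≤ K)
    {c d : Fin (k + 1) → ℂ} (hc : ‖c‖ ≤ 1) (hd : ‖d‖ ≤ 1) :
    |‖uc u c y‖ ^ 2 - ‖uc u d y‖ ^ 2| ≤ 2 * K ^ 2 * ‖c - d‖ := by
  have hK0 : 0 ≤ K := le_trans (Finset.sum_nonneg fun i _ => norm_nonneg _) hK
  have h1 : ‖uc u c y‖ ≤ K := (uc_norm hK c).trans (by nlinarith)
  have h2 : ‖uc u d y‖ ≤ K := (uc_norm hK d).trans (by nlinarith)
  have h3 : |‖uc u c y‖ - ‖uc u d y‖| ≤ ‖c - d‖ * K := by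
    refine (abs_norm_sub_norm_le _ _).trans ?_
    rw [uc_sub]
    exact uc_norm hK _
  have h4 : ‖uc u c y‖ ^ 2 - ‖uc u d y‖ ^ 2 =
      (‖uc u c y‖ - ‖uc u d y‖) * (‖uc u c y‖ + ‖uc u d y‖) := by ring
  have h5 : |‖uc u c y‖ + ‖uc u d y‖| ≤ 2 * K := by
    rw [abs_of_nonneg (by positivity)]
    linarith
  rw [h4, abs_mul]
  calc |‖uc u c y‖ - ‖uc u d y‖| * |‖uc u c y‖ + ‖uc u d y‖| ≤ (‖c - d‖ * K) * (2 * K) :=
        mul_le_mul h3 h5 (abs_nonneg _) (by positivity)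
    _ = _ := by ring

/-- the boundary function on the circle has integrable square -/
lemma hHp {β : ℕ → ℂ} {H : ℝ → ℂ} (hH : BdF β H) {p : ℕ} (hp : 1 ≤ p) :
    IntervalIntegrable (fun θ : ℝ => ‖H (p * θ)‖ ^ 2) volume (-Real.pi) Real.pi := by
  have hp0 : (p : ℝ) ≠ 0 := by
    have : p ≠ 0 := by omega
    exact_mod_cast this
  have h1 : Function.Periodic (fun t => ‖H t‖ ^ 2) (2 * Real.pi) := by
    intro t
    simp only
    rw [hH.per]
  have h2 : IntervalIntegrable (fun t => ‖H t‖ ^ 2) volume (-Real.pi) (-Real.pi + 2 * Real.pi) := by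
    have e : -Real.pi + 2 * Real.pi = Real.pi := by ring
    rw [e]
    exact hH.sq
  have h3 := h1.intervalIntegrable (by positivity) h2 (p * (-Real.pi)) (p * Real.pi)
  have h4 := h3.comp_mul_left (c := (p : ℝ))
  rw [mul_div_cancel_left₀ _ hp0, mul_div_cancel_left₀ _ hp0] at h4
  exact h4

theorem t (hPH : S_PH) (hEX : S_EX) (hEE : S_EE) (hMS : S_MS) : S_TT := by
  intro p Ω f φ β V τ₀ H hp hΩ hConf hV hH k u l hl hu hyp
  -- constants
  obtain ⟨K, hK⟩ : ∃ K : ℝ, ∀ y ∈ closedBall (0 : ℂ) 1, ∑ i, ‖u i y‖ ≤ K := by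
    have hc : ContinuousOn (fun y => ∑ i, ‖u i y‖) (closedBall (0 : ℂ) 1) :=
      (continuous_finset_sum _ fun i _ => (hu i).continuous.norm).continuousOn
    obtain ⟨y0, _, hy0⟩ := (isCompact_closedBall (0 : ℂ) 1).exists_isMaxOn
      ⟨0, mem_closedBall_self (by norm_num)⟩ hc
    exact ⟨_, fun y hy => hy0 hy⟩
  have hK0 : 0 ≤ K := le_trans (Finset.sum_nonneg fun i _ => norm_nonneg _)
    (hK 0 (mem_closedBall_self (by norm_num)))
  obtain ⟨hφ, -, -, -, -, -, -⟩ := hPH p Ω f φ β hp hΩ.isOpen hConf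
  have hfin : (Measure.hausdorffMeasure 1 : Measure ℂ) (frontier Ω) < ⊤ :=
    Pool.Agent.Helper45.Stek.fm Ω hΩ
  set μ : Measure ℂ := (Measure.hausdorffMeasure 1 : Measure ℂ).restrict (frontier Ω) with hμ
  haveI : IsFiniteMeasure μ := ⟨by rw [hμ, Measure.restrict_apply_univ]; exact hfin⟩
  set L : ℝ := μ.real univ with hL
  have hL0 : 0 ≤ L := measureReal_nonneg
  have hHi := hHp hH hp
  set MH : ℝ := ∫ θ in (-Real.pi)..Real.pi, ‖H (p * θ)‖ ^ 2 with hMH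
  have hMH0 : 0 ≤ MH := by
    rw [hMH]
    exact intervalIntegral.integral_nonneg (by linarith [Real.pi_pos]) fun _ _ => by positivity
  -- the two forms
  set M : (Fin (k + 1) → ℂ) → ℝ := fun c => mass p H (uc u c) with hM
  set B : ℝ → (Fin (k + 1) → ℂ) → ℝ := fun τ c => ∫ x, ‖uc u c (φ (x + τ * V x))‖ ^ 2 ∂μ with hB
  have hcirc : ∀ θ : ℝ, exp (θ * I) ∈ closedBall (0 : ℂ) 1 := by
    intro θ
    rw [mem_closedBall_zero_iff, Complex.norm_exp_ofReal_mul_I]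
  have hMi : ∀ c, IntervalIntegrable
      (fun θ : ℝ => ‖uc u c (exp (θ * I))‖ ^ 2 * ‖H (p * θ)‖ ^ 2) volume (-Real.pi) Real.pi := by
    intro c
    refine hHi.continuousOn_mul (Continuous.continuousOn ?_)
    exact ((uc_cont hu c).comp (by fun_prop)).norm.pow 2
  have hMlip : ∀ c d, ‖c‖ ≤ 1 → ‖d‖ ≤ 1 → |M c - M d| ≤ 2 * K ^ 2 * MH * ‖c - d‖ := by
    intro c d hc hd
    simp only [hM, mass]
    rw [← intervalIntegral.integral_sub (hMi c) (hMi d)]
    have h1 : ∀ θ : ℝ, ‖‖uc u c (exp (θ * I))‖ ^ 2 * ‖H (p * θ)‖ ^ 2 -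
        ‖uc u d (exp (θ * I))‖ ^ 2 * ‖H (p * θ)‖ ^ 2‖ ≤
        2 * K ^ 2 * ‖c - d‖ * ‖H (p * θ)‖ ^ 2 := by
      intro θ
      rw [← sub_mul, norm_mul, Real.norm_eq_abs, Real.norm_of_nonneg (by positivity)]
      exact mul_le_mul_of_nonneg_right (sq_lip (hK _ (hcirc θ)) hc hd) (by positivity)
    have h2 := intervalIntegral.norm_integral_le_of_norm_le (by linarith [Real.pi_pos])
      (Eventually.of_forall fun θ _ => h1 θ) (hHi.const_mul (2 * K ^ 2 * ‖c - d‖))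
    rw [intervalIntegral.integral_const_mul, Real.norm_eq_abs] at h2
    refine h2.trans (le_of_eq ?_)
    rw [hMH]
    ring
  -- points of the frontier
  have hy : ∀ τ : ℝ, 0 < τ → τ < τ₀ → ∀ x ∈ frontier Ω, φ (x + τ * V x) ∈ closedBall (0 : ℂ) 1 := by
    intro τ h0 h1 x hx
    exact ball_subset_closedBall (hφ _ (hV.shift τ h0 h1 x (frontier_subset_closure hx))).1
  have hBi : ∀ τ : ℝ, 0 < τ → τ < τ₀ → ∀ c,
      Integrable (fun x => ‖uc u c (φ (x + τ * V x))‖ ^ 2) μ := by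
    intro τ h0 h1 c
    have hc1 : ContinuousOn (fun x => ‖uc u c (φ (x + τ * V x))‖ ^ 2) (frontier Ω) := by
      have hφc : ContinuousOn φ Ω := fun y hy => (hφ y hy).2.2.continuousAt.continuousWithinAt
      have h2 : ContinuousOn (fun x => φ (x + τ * V x)) (frontier Ω) := by
        refine hφc.comp (Continuous.continuousOn ?_) ?_
        · exact continuous_id.add (continuous_const.mul hV.sm.continuous)
        · intro x hx
          exact hV.shift τ h0 h1 x (frontier_subset_closure hx)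
      exact ((uc_cont hu c).comp_continuousOn h2).norm.pow 2
    refine ⟨hc1.aestronglyMeasurable isClosed_frontier.measurableSet, ?_⟩
    refine HasFiniteIntegral.of_bounded (C := (‖c‖ * K) ^ 2) ?_
    rw [hμ, ae_restrict_iff' isClosed_frontier.measurableSet]
    refine Eventually.of_forall fun x hx => ?_
    rw [Real.norm_of_nonneg (by positivity)]
    exact pow_le_pow_left₀ (norm_nonneg _) (uc_norm (hK _ (hy τ h0 h1 x hx)) c) 2
  have hBlip : ∀ τ : ℝ, 0 < τ → τ < τ₀ → ∀ c d, ‖c‖ ≤ 1 → ‖d‖ ≤ 1 →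
      B τ c ≤ B τ d + 2 * K ^ 2 * L * ‖c - d‖ := by
    intro τ h0 h1 c d hc hd
    simp only [hB]
    have h2 : ∫ x, (2 * K ^ 2 * ‖c - d‖) ∂μ = 2 * K ^ 2 * L * ‖c - d‖ := by
      rw [integral_const, smul_eq_mul, hL]
      ring
    rw [← h2, ← integral_add (hBi τ h0 h1 d) (integrable_const _)]
    refine integral_mono_ae (hBi τ h0 h1 c) ((hBi τ h0 h1 d).add (integrable_const _)) ?_
    rw [Filter.EventuallyLE, hμ, ae_restrict_iff' isClosed_frontier.measurableSet]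
    refine Eventually.of_forall fun x hx => ?_
    have h3 := (abs_le.1 (sq_lip (hK _ (hy τ h0 h1 x hx)) hc hd)).2
    linarith
  -- uniform comparison
  have hkey : ∀ ε' : ℝ, 0 < ε' → ∃ τ₂ : ℝ, 0 < τ₂ ∧ τ₂ ≤ τ₀ ∧ ∀ τ : ℝ, 0 < τ → τ < τ₂ →
      ∀ c ∈ sphere (0 : Fin (k + 1) → ℂ) 1, M c ≤ B τ c + ε' := by
    intro ε' hε'
    refine IsCompact.induction_on (p := fun s => ∃ τ₂ : ℝ, 0 < τ₂ ∧ τ₂ ≤ τ₀ ∧ ∀ τ : ℝ, 0 < τ →
      τ < τ₂ → ∀ c ∈ s, M c ≤ B τ c + ε') (isCompact_sphere (0 : Fin (k + 1) → ℂ) 1) ?_ ?_ ?_ ?_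
    · exact ⟨τ₀, hV.pos, le_refl _, fun τ _ _ c hc => absurd hc (notMem_empty c)⟩
    · rintro s t hst ⟨τ₂, h1, h2, h3⟩
      exact ⟨τ₂, h1, h2, fun τ ha hb c hc => h3 τ ha hb c (hst hc)⟩
    · rintro s t ⟨τ₂, h1, h2, h3⟩ ⟨τ₃, h4, h5, h6⟩
      refine ⟨min τ₂ τ₃, lt_min h1 h4, (min_le_left _ _).trans h2, fun τ ha hb c hc => ?_⟩
      rcases hc with hc | hc
      · exact h3 τ ha (hb.trans_le (min_le_left _ _)) c hc
      · exact h6 τ ha (hb.trans_le (min_le_right _ _)) c hc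
    · intro c₀ hc₀
      have hn0 : ‖c₀‖ = 1 := mem_sphere_zero_iff_norm.1 hc₀
      obtain ⟨τ₂, h1, h2, h3⟩ := hMS p Ω f φ β V τ₀ H hp hΩ hConf hV hH
        (fun w => ‖uc u c₀ w‖ ^ 2) ((uc_cont hu c₀).norm.pow 2) (fun w => by positivity)
        (ε' / 3) (by positivity)
      set δ : ℝ := ε' / (3 * (2 * K ^ 2 * (L + MH) + 1)) with hδ
      have hδ0 : 0 < δ := by positivity
      have hδ1 : δ * (3 * (2 * K ^ 2 * (L + MH) + 1)) = ε' := by
        rw [hδ]
        field_simp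
      have hδL : 2 * K ^ 2 * L * δ ≤ ε' / 3 := by
        have h4 : 0 ≤ K ^ 2 * MH * δ := by positivity
        nlinarith
      have hδM : 2 * K ^ 2 * MH * δ ≤ ε' / 3 := by
        have h4 : 0 ≤ K ^ 2 * L * δ := by positivity
        nlinarith
      refine ⟨ball c₀ δ ∩ sphere 0 1, ?_, τ₂, h1, h2, fun τ ha hb c hc => ?_⟩
      · rw [inter_comm]
        exact inter_mem self_mem_nhdsWithin (mem_nhdsWithin_of_mem_nhds (ball_mem_nhds c₀ hδ0))
      · have hn : ‖c‖ = 1 := mem_sphere_zero_iff_norm.1 hc.2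
        have hd : ‖c - c₀‖ ≤ δ := by
          have := mem_ball.1 hc.1
          rw [dist_eq_norm] at this
          exact this.le
        have h4 := (abs_le.1 (hMlip c c₀ hn.le hn0.le)).2
        have h5 := hBlip τ ha (hb.trans_le h2) c₀ c hn0.le hn.le
        have h6 := h3 τ ha hb
        have h7 : M c₀ ≤ B τ c₀ + ε' / 3 := h6
        have h8 : 2 * K ^ 2 * MH * ‖c - c₀‖ ≤ 2 * K ^ 2 * MH * δ :=
          mul_le_mul_of_nonneg_left hd (by positivity)
        have h9 : 2 * K ^ 2 * L * ‖c₀ - c‖ ≤ 2 * K ^ 2 * L * δ := by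
          rw [norm_sub_rev]
          exact mul_le_mul_of_nonneg_left hd (by positivity)
        linarith
  -- the minimum of the mass
  obtain ⟨μ₀, hμ₀, hmin⟩ : ∃ μ₀ : ℝ, 0 < μ₀ ∧ ∀ c ∈ sphere (0 : Fin (k + 1) → ℂ) 1, μ₀ ≤ M c := by
    have hcont : ContinuousOn M (sphere (0 : Fin (k + 1) → ℂ) 1) := by
      have hl : LipschitzOnWith (Real.toNNReal (2 * K ^ 2 * MH)) M
          (sphere (0 : Fin (k + 1) → ℂ) 1) := by
        refine LipschitzOnWith.of_dist_le_mul fun c hc d hd => ?_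
        rw [Real.coe_toNNReal _ (by positivity), dist_eq_norm, Real.norm_eq_abs, dist_eq_norm]
        exact hMlip c d (mem_sphere_zero_iff_norm.1 hc).le (mem_sphere_zero_iff_norm.1 hd).le
      exact hl.continuousOn
    have hne : (sphere (0 : Fin (k + 1) → ℂ) 1).Nonempty :=
      ⟨fun _ => 1, by rw [mem_sphere_zero_iff_norm]; simp⟩
    obtain ⟨c₁, hc₁, h1⟩ := (isCompact_sphere (0 : Fin (k + 1) → ℂ) 1).exists_isMinOn hne hcont
    refine ⟨M c₁, (hyp c₁ ?_).1, fun c hc => h1 hc⟩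
    intro h0
    have := mem_sphere_zero_iff_norm.1 hc₁
    rw [h0, norm_zero] at this
    norm_num at this
  obtain ⟨C, τ₁, hC, hτ₁, hτ₁0, hE⟩ := hEE p Ω f φ β V τ₀ hp hΩ hConf hV
  -- the bound
  refine le_of_forall_pos_le_add fun ε hε => ?_
  set s : ℝ := min 1 (ε / (3 * l + 1)) with hs
  have hs0 : 0 < s := lt_min one_pos (by positivity)
  have hs1 : s ≤ 1 := min_le_left _ _
  have hs2 : 3 * l * s ≤ ε := by
    have h1 : s ≤ ε / (3 * l + 1) := min_le_right _ _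
    rw [le_div_iff₀ (by positivity)] at h1
    nlinarith
  set ε' : ℝ := μ₀ / 2 * s with hε'
  have hε'0 : 0 < ε' := by positivity
  obtain ⟨τ₂, h1, h2, h3⟩ := hkey ε' hε'0
  set τ : ℝ := min (min τ₁ τ₂) (s / (C + 1)) / 2 with hτ
  have hmpos : 0 < min (min τ₁ τ₂) (s / (C + 1)) := lt_min (lt_min hτ₁ h1) (by positivity)
  have hτ0 : 0 < τ := by rw [hτ]; linarith
  have hτlt : τ < min (min τ₁ τ₂) (s / (C + 1)) := by rw [hτ]; linarith
  have hτa : τ < τ₁ := hτlt.trans_le ((min_le_left _ _).trans (min_le_left _ _))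
  have hτb : τ < τ₂ := hτlt.trans_le ((min_le_left _ _).trans (min_le_right _ _))
  have hτc : C * τ ≤ s := by
    have h4 : τ < s / (C + 1) := hτlt.trans_le (min_le_right _ _)
    rw [lt_div_iff₀ (by positivity)] at h4
    nlinarith
  have hτ₀' : τ < τ₀ := hτa.trans_le hτ₁0
  have hex : ∀ i, ∃ v : ℂ → ℂ, ContDiff ℝ ∞ v ∧ ∀ x ∈ closure Ω, v x = u i (φ (x + τ * V x)) :=
    fun i => hEX p Ω f φ β V τ₀ hp hΩ hConf hV τ hτ0 hτ₀' (u i) (hu i)
  choose v hv1 hv2 using hex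
  refine csInf_le ⟨0, fun x hx => hx.1⟩ ⟨by positivity, v, hv1, fun c hc => ?_⟩
  have hvc : ∀ x ∈ closure Ω, uc v c x = uc u c (φ (x + τ * V x)) := by
    intro x hx
    unfold uc
    exact Finset.sum_congr rfl fun i _ => by rw [hv2 i x hx]
  have hbd : bdry Ω (uc v c) = B τ c := by
    simp only [bdry, hB, hμ]
    refine setIntegral_congr_fun isClosed_frontier.measurableSet ?_
    intro x hx
    simp only
    rw [hvc x (frontier_subset_closure hx)]
  have hen := hE τ hτ0 hτa (uc u c) (uc v c) (uc_smooth hu c) (uc_smooth hv1 c) hvc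
  -- scaling
  have hc0 : 0 < ‖c‖ := norm_pos_iff.2 hc
  set c' : Fin (k + 1) → ℂ := (‖c‖⁻¹ : ℝ) • c with hc'
  have hc'1 : c' ∈ sphere (0 : Fin (k + 1) → ℂ) 1 := by
    rw [mem_sphere_zero_iff_norm, hc', norm_smul, norm_inv, norm_norm, inv_mul_cancel₀ hc0.ne']
  have hcc : c = (‖c‖ : ℝ) • c' := by
    rw [hc', smul_smul, mul_inv_cancel₀ hc0.ne', one_smul]
  have hMs : M c = ‖c‖ ^ 2 * M c' := by
    simp only [hM, mass]
    rw [← intervalIntegral.integral_const_mul]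
    refine intervalIntegral.integral_congr fun θ _ => ?_
    conv_lhs => rw [hcc, uc_smul]
    ring
  have hBs : B τ c = ‖c‖ ^ 2 * B τ c' := by
    simp only [hB]
    rw [← integral_const_mul]
    refine integral_congr_ae (Eventually.of_forall fun x => ?_)
    simp only
    conv_lhs => rw [hcc, uc_smul]
  have h5 := h3 τ hτ0 hτb c' hc'1
  have h6 := hmin c' hc'1
  have hBc' : μ₀ / 2 ≤ B τ c' := by
    have : ε' ≤ μ₀ / 2 := by
      rw [hε']
      nlinarith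
    linarith
  have h7 : M c' ≤ (1 + s) * B τ c' := by
    have h8 : ε' ≤ s * B τ c' := by
      rw [hε']
      nlinarith
    linarith
  have h8 : M c ≤ (1 + s) * B τ c := by
    rw [hMs, hBs]
    have := mul_le_mul_of_nonneg_left h7 (sq_nonneg ‖c‖)
    linarith
  have hBc : 0 < B τ c := by
    rw [hBs]
    have : 0 < B τ c' := by linarith
    positivity
  have h9 : energy (ball 0 1) (uc u c) ≤ l * M c := (hyp c hc).2
  constructor
  · change 0 < bdry Ω (uc v c)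
    rw [hbd]
    exact hBc
  · change energy Ω (uc v c) ≤ (l + ε) * bdry Ω (uc v c)
    rw [hbd]
    have h10 : (1 + C * τ) * energy (ball 0 1) (uc u c) ≤ (1 + s) * (l * ((1 + s) * B τ c)) := by
      have h11 : l * M c ≤ l * ((1 + s) * B τ c) := mul_le_mul_of_nonneg_left h8 hl
      have h12 : (1 + C * τ) * energy (ball 0 1) (uc u c) ≤ (1 + C * τ) * (l * ((1 + s) * B τ c)) :=
        mul_le_mul_of_nonneg_left (h9.trans h11) (by positivity)
      refine h12.trans ?_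
      apply mul_le_mul_of_nonneg_right (by linarith)
      positivity
    have h13 : (1 + s) * (l * ((1 + s) * B τ c)) = (l + l * (2 * s + s ^ 2)) * B τ c := by ring
    rw [h13] at h10
    refine hen.trans (h10.trans ?_)
    apply mul_le_mul_of_nonneg_right _ hBc.le
    have h14 : l * (2 * s + s ^ 2) ≤ 3 * l * s := by
      have : s ^ 2 ≤ s := by nlinarith
      nlinarith
    linarith

end Pool.Agent.Helper77.ST.TT
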